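import Pool.Agent.Helper31.LW.Goals

/-!
# Project LW, packet SPL: Tonelli for the first coordinates of the columns
-/

open MeasureTheory Set
open scoped ENNReal

namespace Pool.Agent.Helper14.LW

open Pool.Agent.Helper31.LW

/-- The map `(b, Z) ↦ top b Z` preserves the volume. -/
theorem top_mp (e m : ℕ) :
    MeasurePreserving (fun p : (Fin m → ℝ) × (Fin m → Fin e → ℝ) => top p.1 p.2)
      volume volume := by
  have h1 : MeasurePreserving (MeasurableEquiv.piFinSuccAbove (fun _ : Fin (e + 1) => ℝ) 0).symm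
      volume volume :=
    (volume_preserving_piFinSuccAbove (fun _ : Fin (e + 1) => ℝ) 0).symm _
  have h2 : MeasurePreserving
      (fun (a : Fin m → ℝ × (Fin e → ℝ)) (i : Fin m) =>
        (MeasurableEquiv.piFinSuccAbove (fun _ : Fin (e + 1) => ℝ) 0).symm (a i))
      volume volume := volume_preserving_pi fun _ => h1
  have h3 : MeasurePreserving
      (MeasurableEquiv.arrowProdEquivProdArrow ℝ (Fin e → ℝ) (Fin m)).symm volume volume :=
    (volume_measurePreserving_arrowProdEquivProdArrow ℝ (Fin e → ℝ) (Fin m)).symm _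
  have h4 := h2.comp h3
  have h5 : (fun p : (Fin m → ℝ) × (Fin m → Fin e → ℝ) => top p.1 p.2) =
      (fun (a : Fin m → ℝ × (Fin e → ℝ)) (i : Fin m) =>
        (MeasurableEquiv.piFinSuccAbove (fun _ : Fin (e + 1) => ℝ) 0).symm (a i)) ∘
      (MeasurableEquiv.arrowProdEquivProdArrow ℝ (Fin e → ℝ) (Fin m)).symm := by
    funext p
    funext l
    funext k
    refine Fin.cases ?_ (fun k => ?_) k
    · rfl
    · rfl
  rw [h5]
  exact h4

/-- packet **SPL** -/
theorem gSPL : Pool.Agent.Helper31.LW.SPL := by
  intro e m h hh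
  have h1 := (top_mp e m).lintegral_comp hh
  rw [← h1]
  exact lintegral_prod_symm (fun p : (Fin m → ℝ) × (Fin m → Fin e → ℝ) => h (top p.1 p.2))
    (hh.comp (top_mp e m).measurable).aemeasurable

end Pool.Agent.Helper14.LW
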